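import Pool.Agent.L7h7.CFUnitsLang
import Pool.Agent.L7h7.CFUnitsGroup

/-! A monoid with context-free word problem whose group of units is not finitely generated:
the monoid generated by `a, b, c` with relations `(a bⁿ c)² = 1` for all `n`. -/

namespace Pool.Agent.Results.MP_435286_al.UnitsNotFG

open Pool.Agent.L7h7.CFUnits List

/-- The word problem of a monoid `M` with respect to the generators `g x`, `x : A`: the language
of all words `u`, then the separator, then `v` reversed, where `u` and `v` represent the same
element. The separator is `none : Option A` and the letter `x : A` is `some x`. -/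
def WordProblem {A M : Type} [Monoid M] (g : A → M) : Language (Option A) :=
  {w | ∃ u v : List A, (u.map g).prod = (v.map g).prod ∧
    w = u.map some ++ [none] ++ (v.map some).reverse}

/-- `M` has context-free word problem: for some finite set `A` of generators of `M` (an injective
map `g : A → M` whose range generates `M` as a monoid) the word problem is a context-free
language. -/
def HasContextFreeWP (M : Type) [Monoid M] : Prop :=
  ∃ (A : Type) (_ : Finite A) (g : A → M), Function.Injective g ∧
    Submonoid.closure (Set.range g) = ⊤ ∧ (WordProblem g).IsContextFree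

/-- Irreducible stacks. -/
abbrev Stack : Type := {s : List Let3 // Irr s}

/-- The action of a letter on stacks. -/
noncomputable def letterAct (x : Let3) : Function.End Stack := fun s => ⟨push x s.1, push_irr s.2⟩

/-- The monoid. -/
abbrev Mon : Type := Submonoid.closure (Set.range letterAct)

/-- The generators. -/
noncomputable def gen (x : Let3) : Mon := ⟨letterAct x, Submonoid.subset_closure ⟨x, rfl⟩⟩

theorem gen_prod (w : List Let3) (s : Stack) :
    (((w.map gen).prod : Mon).1 s).1 = run w s.1 := by
  induction w with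
  | nil => rfl
  | cons x w ih =>
    rw [map_cons, prod_cons, run_cons, ← ih]
    rfl

theorem gen_prod_eq_iff (u v : List Let3) :
    (u.map gen).prod = (v.map gen).prod ↔ ∀ s, Irr s → run u s = run v s := by
  constructor
  · intro h s hs
    rw [← gen_prod u ⟨s, hs⟩, ← gen_prod v ⟨s, hs⟩, h]
  · intro h
    apply Subtype.ext
    funext s
    apply Subtype.ext
    rw [gen_prod, gen_prod, h s.1 s.2]

theorem gen_injective : Function.Injective gen := by
  have h1 : ∀ x : Let3, run [x] [] = [x] := by
    intro x
    rw [run_cons, run_nil]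
    apply push_stay
    intro n t e
    have := congrArg List.length e
    rw [sq_eq] at this
    simp at this
  intro x y h
  have h2 : ([x].map gen).prod = ([y].map gen).prod := by simp [h]
  have h3 := (gen_prod_eq_iff [x] [y]).1 h2 [] irr_nil
  rw [h1, h1] at h3
  simpa using h3

theorem gen_closure : Submonoid.closure (Set.range gen) = ⊤ := by
  have h := Submonoid.closure_closure_coe_preimage (s := Set.range letterAct)
  rw [← h]
  congr 1
  ext m
  constructor
  · rintro ⟨x, rfl⟩
    exact ⟨x, rfl⟩
  · rintro ⟨x, hx⟩
    exact ⟨x, Subtype.ext hx⟩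

theorem exists_word (m : Mon) : ∃ w : List Let3, (w.map gen).prod = m := by
  have hm : m ∈ Submonoid.closure (Set.range gen) := by
    rw [gen_closure]
    trivial
  induction hm using Submonoid.closure_induction with
  | mem x hx =>
    obtain ⟨l, rfl⟩ := hx
    exact ⟨[l], by simp⟩
  | one => exact ⟨[], rfl⟩
  | mul x y _ _ hx hy =>
    obtain ⟨u, rfl⟩ := hx
    obtain ⟨v, rfl⟩ := hy
    exact ⟨u ++ v, by simp⟩

theorem contextFree : HasContextFreeWP Mon := by
  refine ⟨Let3, inferInstance, gen, gen_injective, gen_closure, gram, ?_⟩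
  ext w
  rw [mem_language]
  constructor
  · rintro ⟨u, v, huv, rfl⟩
    exact ⟨u, v, (gen_prod_eq_iff u v).2 huv, by simp [emb]⟩
  · rintro ⟨u, v, huv, rfl⟩
    exact ⟨u, v, (gen_prod_eq_iff u v).1 huv, by simp [emb]⟩

/-- The unit `a bⁿ c`. -/
noncomputable def unitBlk (n : ℕ) : Monˣ where
  val := ((blk n).map gen).prod
  inv := ((blk n).map gen).prod
  val_inv := by
    have h := (gen_prod_eq_iff (blk n ++ blk n) []).2 (fun s hs => run_sq n hs)
    simpa using h
  inv_val := by
    have h := (gen_prod_eq_iff (blk n ++ blk n) []).2 (fun s hs => run_sq n hs)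
    simpa using h

/-- Units which, with their inverses, preserve the stacks without factor `a b^N c`. -/
def Keep (N : ℕ) : Subgroup Monˣ where
  carrier := {g | (∀ s : Stack, Free N s.1 → Free N ((g : Mon).1 s).1) ∧
    (∀ s : Stack, Free N s.1 → Free N (((g⁻¹ : Monˣ) : Mon).1 s).1)}
  mul_mem' := by
    rintro g h ⟨hg1, hg2⟩ ⟨hh1, hh2⟩
    refine ⟨fun s hs => ?_, fun s hs => ?_⟩
    · exact hg1 _ (hh1 s hs)
    · rw [mul_inv_rev]
      exact hh2 _ (hg2 s hs)
  one_mem' := by
    refine ⟨fun s hs => hs, fun s hs => ?_⟩
    rw [inv_one]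
    exact hs
  inv_mem' := by
    rintro g ⟨hg1, hg2⟩
    refine ⟨hg2, ?_⟩
    rw [inv_inv]
    exact hg1

theorem keep_of_unit (g : Monˣ) : ∃ N₀, ∀ N, N₀ ≤ N → g ∈ Keep N := by
  obtain ⟨w, hw⟩ := exists_word (g : Mon)
  obtain ⟨w', hw'⟩ := exists_word ((g⁻¹ : Monˣ) : Mon)
  have h1 : ∀ s, Irr s → run w (run w' s) = s := by
    have h : ((w ++ w').map gen).prod = (([] : List Let3).map gen).prod := by
      rw [map_append, prod_append, hw, hw']
      simp
    intro s hs
    rw [← run_append]
    exact (gen_prod_eq_iff _ _).1 h s hs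
  have h2 : ∀ s, Irr s → run w' (run w s) = s := by
    have h : ((w' ++ w).map gen).prod = (([] : List Let3).map gen).prod := by
      rw [map_append, prod_append, hw, hw']
      simp
    intro s hs
    rw [← run_append]
    exact (gen_prod_eq_iff _ _).1 h s hs
  obtain ⟨N₁, hN₁⟩ := free_of_invertible h1 h2
  obtain ⟨N₂, hN₂⟩ := free_of_invertible h2 h1
  refine ⟨max N₁ N₂, fun N hN => ⟨fun s hs => ?_, fun s hs => ?_⟩⟩
  · rw [← hw, gen_prod]
    exact hN₁ N (le_trans (le_max_left _ _) hN) _ s.2 hs
  · rw [← hw', gen_prod]
    exact hN₂ N (le_trans (le_max_right _ _) hN) _ s.2 hs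

theorem not_fg : ¬ Group.FG Monˣ := by
  intro h
  obtain ⟨S, hS⟩ := h.out
  choose f hf using keep_of_unit
  let N := S.sup f
  have h1 : Subgroup.closure (S : Set Monˣ) ≤ Keep N := by
    rw [Subgroup.closure_le]
    intro g hg
    exact hf g N (Finset.le_sup (f := f) hg)
  rw [hS] at h1
  have h2 : unitBlk N ∈ Keep N := h1 trivial
  have h3 := h2.1 ⟨[], irr_nil⟩ (free_nil N)
  have h4 : (((unitBlk N : Monˣ) : Mon).1 ⟨[], irr_nil⟩).1 = run (blk N) [] :=
    gen_prod (blk N) ⟨[], irr_nil⟩
  rw [h4, run_blk_stay N [] (by intro t e; simp [blk] at e)] at h3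
  exact h3 [] [] (by simp)

/-- There is a monoid with context-free word problem whose group of units is not finitely
generated. -/
theorem result : ∃ (M : Type) (_ : Monoid M), HasContextFreeWP M ∧ ¬ Group.FG Mˣ :=
  ⟨Mon, inferInstance, contextFree, not_fg⟩

end Pool.Agent.Results.MP_435286_al.UnitsNotFG
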